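import Mathlib
import Pool.Agent.Lib.MP_50e386_al.Defs
import Pool.Agent.Lib.MP_50e386_al.B.Xi

/-!
# `Sym(Sym^2(ℂ^∞))` is `O_∞`-noetherian

Every ascending chain of `O_∞`-stable ideals of `A = Sym(Sym^2(ℂ^∞))` is eventually constant.

Sketch of the proof. One may pass to the split symmetric form `om`. Let `J_(r|s)` be the
`GL`-stable ideal generated by the powers `Δ(w)^(s+1)` of the determinants of `(r+1) × (r+1)` Gram
matrices, and `nn(J)` the ideal generated by all `f(φ)`, `f ∈ J`, `φ` a linear substitution with
isotropic image. As in the symplectic case, the stable submodules of `(A / J_(r|s)) ⊗ V^(⊗ m)`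
satisfy the ascending chain condition. Every nonzero stable ideal contains some `nn(J_(r|s))`, so it
is enough that the stable submodules of `(A / nn(J_(r|s))) ⊗ V^(⊗ m)` satisfy the ascending chain
condition. Let `τ : A → A[t]`, `x_ij ↦ x_ij + om_ij t`, and let `K_J` be the ideal of all `f` such
that the coefficients of `τ f` lie in `J = J_(r|s)`; it contains `nn(J)`. The ring `(A / J)[t]` is
integral over `A / K_J` and the conductor contains a power of `𝔥 = nn(J_(r-1|s)) nn(J_(r|s-1))`, so
by induction `A / K_J` has the ascending chain condition. Every element of `K_J` is killed by a power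
of `𝔥` modulo `nn(J)`; the `GL`-equivariant Kähler differential shows that `K_J` is generated in
bounded degree and that one power of `𝔥` suffices. So `A / nn(J)` has the ascending chain condition.
-/

namespace Pool.Agent.Results.MP_50e386_al.ONoetherian

open Pool.Agent.Lib.MP50e386

theorem result (I : ℕ → Ideal SymSym) (hmono : Monotone I) (hI : ∀ n, IsStable IsO (I n)) :
    ∃ n0, ∀ n ≥ n0, I n = I n0 :=
  MP50e386O.o_noetherian I hmono hI

end Pool.Agent.Results.MP_50e386_al.ONoetherian
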