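import Mathlib
import Pool.Agent.Lib.MP_50e386_al.Defs
import Pool.Agent.Lib.MP_50e386_al.Bridge

/-!
# `O_∞`-stable ideals of `Sym(Sym^2(ℂ^∞))` and `GL_∞`-stable ideals

An `O_∞`-stable ideal `J` of `A = Sym(Sym^2(ℂ^∞))` contains a nonzero `GL_∞`-stable ideal if and
only if it does not vanish at any nonzero multiple of the invariant form, that is, for every
`c ≠ 0` some `f ∈ J` has `f(c · identity) ≠ 0`.

The proof follows the symplectic case; the new point is that a quadratic form `q` on `ℂ^M` either
is nondegenerate on an isotropic subspace of the right dimension, or agrees on a subspace of small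
codimension with a multiple of the invariant form (a form vanishing on the null cone of a form
of rank at least two is a multiple of it).
-/

namespace Pool.Agent.Results.MP_50e386_al.OrthogonalIdeals

open Pool.Agent.Lib.MP50e386

theorem result (J : Ideal SymSym) (hJ : IsStable IsO J) :
    (∃ I : Ideal SymSym, I ≠ ⊥ ∧ I ≤ J ∧ IsStable IsGL I) ↔
      ∀ c : ℂ, c ≠ 0 → ∃ f ∈ J, evalScalar c f ≠ 0 := by
  constructor
  · rintro ⟨I, hI0, hIJ, hI⟩ c hc
    obtain ⟨f, hf, hfc⟩ := MP50e386.gl_not_scalar I hI0 (fun g hg f hf => by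
      have h1 := hI g hg f hf
      rwa [MP50e386.act_eq] at h1) c hc
    exact ⟨f, hIJ hf, hfc⟩
  · intro hc
    obtain ⟨M, N0, hle⟩ := MP50e386.main_o J (by
      intro g hg1 hg2 f hf
      have h1 := hJ g ⟨hg1, fun x y => by
        rw [MP50e386.symmForm_eq, MP50e386.symmForm_eq]
        exact hg2 x y⟩ f hf
      rwa [MP50e386.act_eq] at h1) hc
    refine ⟨MP50e386.detIdeal M N0, MP50e386.detIdeal_ne_bot M N0, hle, ?_⟩
    intro g _ f hf
    rw [MP50e386.act_eq]
    exact MP50e386.detIdeal_stable M N0 _ f hf

end Pool.Agent.Results.MP_50e386_al.OrthogonalIdeals
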