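import Mathlib
import Pool.Agent.Lib.MP_50e386_al.Defs
import Pool.Agent.Lib.MP_50e386_al.B.Se

/-!
# `Sym(Sym^2(ℂ^∞))` is `Sp_∞`-noetherian

Every ascending chain of `Sp_∞`-stable ideals of `A = Sym(Sym^2(ℂ^∞))` is eventually constant.

Sketch of the proof. For a stable graded submodule `N` of `A ⊗ V^(⊗ m)` let `M₁(N)` be the set of all
`f` such that `f(φ) ∈ N` for every linear substitution `φ` with isotropic image; it is stable under all
linear substitutions, and `nn(M₁) ≤ N ≤ M₁(N)` where `nn(M₁)` is generated by the `f(φ)`, `f ∈ M₁`,
`φ` isotropic. The ideals `J_(r|s)` generated by the powers `Δ(w)^(s+1)` of the determinants of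
`(r+1) × (r+1)` Gram matrices are the kernels of evaluations in supercommutative rings, and every
nonzero stable ideal contains one of them. One shows by induction on `(r|s)` that the stable
submodules of `(A / J_(r|s)) ⊗ V^(⊗ m)` satisfy the ascending chain condition: the elements of
`M₁` killed by all contractions are torsion modulo `nn(M₁)` with respect to the ideal
`J_(r-1|s) J_(r|s-1)`, an Artin-Rees argument for the `GL`-equivariant modules makes this uniform,
and the contractions reduce the remaining part to smaller `m`.
-/

namespace Pool.Agent.Results.MP_50e386_al.SpNoetherian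

open Pool.Agent.Lib.MP50e386

theorem result (I : ℕ → Ideal SymSym) (hmono : Monotone I) (hI : ∀ n, IsStable IsSp (I n)) :
    ∃ n0, ∀ n ≥ n0, I n = I n0 :=
  MP50e386N.sp_noetherian I hmono hI

end Pool.Agent.Results.MP_50e386_al.SpNoetherian
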