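import Mathlib
import Pool.Agent.Lib.MP_50e386_al.Defs
import Pool.Agent.Lib.MP_50e386_al.Bridge

/-!
# `Sp_∞`-stable ideals of `Sym(Sym^2(ℂ^∞))` contain `GL_∞`-stable ideals

Every nonzero `Sp_∞`-stable ideal of `A = Sym(Sym^2(ℂ^∞))` contains a nonzero `GL_∞`-stable ideal.
So the question whether `A` is `Sp_∞`-noetherian is a question about the quotients `A / I` by
nonzero `GL_∞`-stable ideals `I`.

Sketch of the proof. Let `f ∈ J` be nonzero with top degree part `T`. Replacing the basis vectors
by `t w_i + c_i` with `w_i` isotropic and letting `t → ∞` gives `T(w_i w_j) ∈ J` for all isotropic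
tuples `w`. A nondegenerate quadratic form on `ℂ^M`, `M` large, is nondegenerate on some isotropic
subspace of the right dimension, so by the Nullstellensatz a power of the generic `M × M`
determinant lies in `J`; Witt's theorem and a limit argument give the same power of
`det (u_i u_j)` for all vectors `u_1, …, u_M`. These powers span a `GL_∞`-stable ideal.
-/

namespace Pool.Agent.Results.MP_50e386_al.SymplecticIdeals

open Pool.Agent.Lib.MP50e386

theorem result (J : Ideal SymSym) (hJ0 : J ≠ ⊥) (hJ : IsStable IsSp J) :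
    ∃ I : Ideal SymSym, I ≠ ⊥ ∧ I ≤ J ∧ IsStable IsGL I := by
  obtain ⟨M, N0, hle⟩ := MP50e386.main_sp J hJ0 (by
    intro g hg1 hg2 f hf
    have h1 := hJ g ⟨hg1, fun x y => by
      rw [MP50e386.sympForm_eq, MP50e386.sympForm_eq]
      exact hg2 x y⟩ f hf
    rwa [MP50e386.act_eq] at h1)
  refine ⟨MP50e386.detIdeal M N0, MP50e386.detIdeal_ne_bot M N0, hle, ?_⟩
  intro g _ f hf
  rw [MP50e386.act_eq]
  exact MP50e386.detIdeal_stable M N0 _ f hf

end Pool.Agent.Results.MP_50e386_al.SymplecticIdeals
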